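import Pool.Agent.H73AR.Irr
import Pool.Agent.H73AR.GT
import Pool.Agent.H73AR.CP2
import Pool.Agent.H73AR.EP2
import Pool.Agent.H73AR.FR

/-!
# Artin groups, their quotients by even powers of the generators, and extensions of these

`C` is any class of groups with the closure properties `ClosedE C`, all of which are known for the
class of the groups that satisfy the fibered Farrell–Jones conjecture in A-theory with coefficients and
finite wreath products, and which contains the Coxeter groups of finite rank (known for that class: these groups
act properly and cocompactly on finite dimensional CAT(0) spaces).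

For a Coxeter matrix `M` on a set `B` of any size and exponents `p b` which are even (`0` allowed) and equal
for generators joined by an odd label let `Shp M p` be the Artin group of `M` modulo the relations
`σ_b ^ p b = 1`; so `p = 0` gives the Artin group and `p = 2` the Coxeter group.

* `Shp M p` is in `C` iff `Shp (rest M T) (resp p T)` is for the finite sets `T` without label `∞` which do not
  split into two parts joined by labels `2` only.
* The same holds for extensions with kernel `Shp M p` by groups in `C` if the extension is generated by the kernel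
  and by elements which permute the generators (up to a common sign), for instance for virtual Artin
  groups `KVA ⋊ W`, and for mapping tori of graph automorphisms of Artin groups of infinite rank.
* Unconditional case: irreducible parts with at most one element, Coxeter parts, and (for `p = 0`) parts
  with two elements.
* Trees: the general closure theorem behind this. `G` acts on a tree, `N` is normal, `G ⧸ N` is in `C`; for each
  vertex there is a homomorphism of `G` to an unrestricted wreath product `A ≀ Perm X`, `A` in `C`, such that
  the elements of `N` fix `X` and have sections of finite range, and which is injective on the elements of `N`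
  which fix the vertex; then `G` is in `C`. (For Artin groups: the Bass–Serre tree of a splitting along a label `∞`,
  `N` the pure Artin group, the homomorphisms of Charney and Paris, `X = W ⧸ W_T`.)
-/

set_option autoImplicit false

namespace Pool.Agent.Results.MP_59dd5b_al.ArtinGroups

open Pool.Agent.Y110.FJ (ClosedE)
open Pool.Agent.Y462.SS (Wr)
open Pool.Agent.H73AR

theorem result : ∀ C : ∀ (G : Type) [Group G], Prop, ClosedE C →
    ((∀ (S : Type) (_ : Finite S) (M : CoxeterMatrix S), C M.Group) →
      (∀ (B : Type) (M : CoxeterMatrix B) (p : B → ℕ), Adm M p →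
        (C (Shp M p) ↔ ∀ T : Set B, Irr M T → C (Shp (rest M T) (resp p T)))) ∧
      (∀ (B : Type) (M : CoxeterMatrix B) (p : B → ℕ), Adm M p → C (Shp M p) →
        ∀ (G : Type) [Group G] (N : Subgroup G) [N.Normal] (e : Shp M p ≃* N)
          (Q : Subgroup G) [MulAction Q B] (ε : Q → ℤˣ), N ⊔ Q = ⊤ →
          (∀ (q : Q) (b b' : B), M (q • b) (q • b') = M b b') →
          (∀ (q : Q) (b : B), p (q • b) = p b) →
          (∀ (q : Q) (b : B), (q : G) * (e (gen M p b) : G) * (q : G)⁻¹ =
            (e (gen M p (q • b)) : G) ^ (ε q : ℤ)) →
          C (G ⧸ N) → C G) ∧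
      (∀ (B : Type) (M : CoxeterMatrix B) (p : B → ℕ) (T : Set B), Irr M T →
        (T.ncard = 1 ∨ (∀ t ∈ T, p t = 2) ∨ (T.ncard = 2 ∧ ∀ t ∈ T, p t = 0)) →
        C (Shp (rest M T) (resp p T)))) ∧
    (∀ (G V : Type) [Group G] [MulAction G V] (T : SimpleGraph V), T.IsTree →
      (∀ (g : G) (u v : V), T.Adj u v → T.Adj (g • u) (g • v)) →
      ∀ (N : Subgroup G) [N.Normal], C (G ⧸ N) →
      (∀ v : V, ∃ (A : Type) (_ : Group A) (X : Type) (Ψ : G →* Wr X A), C A ∧
        (∀ n ∈ N, (Ψ n).p = 1) ∧ (∀ n ∈ N, (Set.range (Ψ n).s).Finite) ∧
        ∀ n ∈ N, n • v = v → Ψ n = 1 → n = 1) → C G) := by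
  intro C hC
  refine ⟨fun hcox => ⟨?_, ?_, ?_⟩, ?_⟩
  · intro B M p hp
    constructor
    · intro h T hT
      exact (shp_iff t_CP2 t_EP2 hC hcox M hp).1 h T hT.1 hT.2.2.1
    · intro h
      rw [shp_iff t_CP2 t_EP2 hC hcox M hp]
      intro T hT hTM
      exact C_irr hC.base M p h T.ncard T hT rfl hTM
  · intro B M p hp h G _ N _ e Q _ ε hNQ hM hpQ hconj hQ
    exact shp_main e t_CP2 t_FV t_EP2 hC hcox hp
      ((shp_iff t_CP2 t_EP2 hC hcox M hp).1 h) Q ε hNQ hM hpQ hconj hQ
  · intro B M p T hT h
    refine C_small hC.base hcox M p T hT.1 hT.2.2.1 ?_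
    rcases h with h | h
    · exact Or.inl h.le
    · exact Or.inr h
  · intro G V _ _ T hT hact N _ hQ h
    exact t_GT t_FR hC T hT hact N hQ h

end Pool.Agent.Results.MP_59dd5b_al.ArtinGroups
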