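import Pool.Agent.E14.RE.Com

/-!
# Groups acting on trees with commensurable edge groups

`C` is any class of groups with the closure properties `ClosedE C` which contains the metabelian
groups. All this is known for the class of the groups that satisfy the fibered Farrell–Jones conjecture
in A-theory for all free `G`-CW-complexes, with finite wreath products (the virtually solvable groups
are due to Kasprowski, Ullmann, Wegner and Winges).

Let `G` act on a tree, let `L` be a normal subgroup of `G` with `G ⧸ L` in `C`, and let `L v` and `L e`
be the stabilizers of the vertices and of the edges in `L`. Let `M v` be an equivariant family of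
subgroups with `L e ≤ M v ≤ L v` for the edges `e` at `v`. The first theorem says: if the stabilizers
`G v` and the quotients `G v ⧸ M v` are in `C`, and `L e` and `[M v, L v]` intersect trivially, then
`G` is in `C`. If `M v = L v` this is the known criterion on edge groups which embed in the first
homology of the vertex groups. On the other side, the subgroup `M v` generated by the `L e` can be
central in `L v`, and then there is no condition on the homology, but on the quotient. For instance, if
all edge groups are central in the vertex groups, then `G` is in `C` if the groups `G v` and their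
quotients by the groups generated by the edge groups are in `C`.

The second theorem is on groups which act on a tree with edge groups that are subgroups of `ℚ`, pairwise
commensurable in the sense that all of them contain powers of one element. The vertex groups are
arbitrary groups `K` in the class `Tame C` defined by two conditions on the commensurator `Com(e)` of
`⟨e⟩` in `K` and the subgroup `Rad(e)` generated by the elements commensurable with `e`, for all elements
`e` of infinite order: `Com(e) ⧸ Rad(e)` is in `C`, and `e` has infinite order in the abelianization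
of `Rad(e)`. The group `G` is in the same class `Tame C`, and so the theorem can be iterated. All locally
nilpotent groups are in `Tame C` (third theorem). If the vertex groups are infinite cyclic, these are
the generalized Baumslag–Solitar groups; but here the vertex groups may be much larger than the edge
groups. For example, `G` may be the fundamental group of a graph of nilpotent groups with infinite
cyclic edge groups which are all commensurable in `G`.

Outline of the proof. Let `M` be the group generated by the `M v` and `H` the group generated by the
`L v`. Bass–Serre theory gives `M ∩ G v = M v`: compatible homomorphisms on the vertex groups `L v` of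
a transversal extend to `H`, and one can take the map to `L v ⧸ M v` on one of them and the trivial map
on the others. So `G ⧸ M` acts on the quotient tree with stabilizers `G v ⧸ M v` and edge groups which
inject into `G ⧸ L`, and `G ⧸ M` is in `C`. The characters of the `M v` which are invariant under `L v` can
be extended along the tree because `L e` and `[M v, L v]` intersect trivially. They give an
`H`-invariant character of `M`, so that `M v ∩ [M, H] = [M v, L v]`. Hence `G → G ⧸ [M, H]` is
injective on the groups `L e`, and so on the edge groups. Finally, `G ⧸ [M, H]` is an extension of `G ⧸ M`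
by an abelian group. For the second theorem `L` is the virtual centralizer of `e` and `M v` is
`Rad(e) ∩ G v`; hyperbolic elements are treated with the action of `Com(e)` on the axis.
-/

set_option autoImplicit false

namespace Pool.Agent.Results.MP_59dd5b_al.CommensurableEdgeGroups

open Pool.Agent.Y110.FJ (ClosedE)

/-- the stabilizer of `v` in `L` -/
def stab {G V : Type} [Group G] [MulAction G V] (L : Subgroup G) (v : V) : Subgroup G :=
  MulAction.stabilizer G v ⊓ L

/-- an equivariant family of subgroups `M v` of the stabilizers of the vertices in `L` which contain the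
stabilizers in `L` of the edges at `v`, and intersect them trivially after taking commutators with the
stabilizer of `v` in `L` -/
structure Family {G V : Type} [Group G] [MulAction G V] (T : SimpleGraph V) (L : Subgroup G)
    (M : V → Subgroup G) : Prop where
  le : ∀ v, M v ≤ stab L v
  eqv : ∀ (g : G) (v : V), ∀ x ∈ M v, g * x * g⁻¹ ∈ M (g • v)
  edge : ∀ v u, T.Adj v u → stab L v ⊓ stab L u ≤ M v
  comm : ∀ v u, T.Adj v u → stab L v ⊓ stab L u ⊓ ⁅M v, stab L v⁆ = ⊥

/-- the quotient of the group `K` by its subgroup `N` is in `C` -/
def QuotIn (C : ∀ (G : Type) [Group G], Prop) {K : Type} [Group K] (N : Subgroup K) : Prop :=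
  ∃ (P : Type) (_ : Group P) (f : K →* P), C P ∧ f.ker = N

/-- `e` has infinite order -/
def InfiniteOrder {G : Type} [Group G] (e : G) : Prop := ∀ m : ℤ, m ≠ 0 → e ^ m ≠ 1

/-- `Rad(e)`: the subgroup generated by the elements which have a nontrivial power in common with
`e` -/
def Rad {G : Type} [Group G] (e : G) : Subgroup G :=
  Subgroup.closure {x | ∃ p q : ℤ, p ≠ 0 ∧ q ≠ 0 ∧ x ^ p = e ^ q}

/-- `Com(e)`: the commensurator of the subgroup generated by `e` -/
def Com {G : Type} [Group G] (e : G) : Subgroup G := Pool.Agent.E14.RE.Kom e

/-- the elements of `Com(e)` -/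
theorem mem_Com {G : Type} [Group G] (e k : G) :
    k ∈ Com e ↔ ∃ p q : ℤ, p ≠ 0 ∧ q ≠ 0 ∧ k * e ^ p * k⁻¹ = e ^ q := Iff.rfl

/-- the class of the vertex groups -/
structure Tame (C : ∀ (G : Type) [Group G], Prop) (K : Type) [Group K] : Prop where
  mem : C K
  quot : ∀ e : K, InfiniteOrder e → QuotIn C ((Rad e).subgroupOf (Com e))
  comm : ∀ e : K, InfiniteOrder e → ∀ m : ℤ, m ≠ 0 → e ^ m ∉ ⁅Rad e, Rad e⁆

/-- an action without inversions on a tree -/
structure TreeAction (G : Type) {V : Type} [Group G] [MulAction G V] (T : SimpleGraph V) : Prop where
  isTree : T.IsTree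
  adj : ∀ (g : G) (v w : V), T.Adj v w → T.Adj (g • v) (g • w)
  noInv : ∀ (g : G) (v w : V), T.Adj v w → ¬ (g • v = w ∧ g • w = v)

/-- the stabilizer of the edge between `v` and `u` contains a nontrivial power of `e` and is isomorphic
to a subgroup of `ℚ` -/
def RankOne {G V : Type} [Group G] [MulAction G V] (e : G) (v u : V) : Prop :=
  (∃ m : ℤ, m ≠ 0 ∧ e ^ m • v = v ∧ e ^ m • u = u) ∧
    ∃ ι : ↥(MulAction.stabilizer G v ⊓ MulAction.stabilizer G u) →* Multiplicative ℚ,
      Function.Injective ι

theorem tame_iff {C : ∀ (G : Type) [Group G], Prop} {K : Type} [Group K] :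
    Tame C K ↔ Pool.Agent.E14.RE.Tame C K := by
  constructor
  · rintro ⟨h1, h2, h3⟩
    refine ⟨h1, fun e he => ?_, fun e he => Pool.Agent.E14.RE.Ht.of_notMem (h3 e he)⟩
    obtain ⟨P, _, f, hP, hf⟩ := h2 e he
    have h4 : ∀ x, x ∈ f.ker ↔ x ∈ (Rad e).subgroupOf (Com e) := fun x => by rw [hf]
    exact ⟨P, _, f, hP, h4⟩
  · rintro ⟨h1, h2, h3⟩
    refine ⟨h1, fun e he => ?_, fun e he m hm => (h3 e he).notMem hm⟩
    obtain ⟨P, _, f, hP, hf⟩ := h2 e he
    refine ⟨P, _, f, hP, ?_⟩
    ext x
    rw [MonoidHom.mem_ker, Subgroup.mem_subgroupOf]
    exact hf x

/-- Let `C` be a class of groups with the closure properties `ClosedE C` which contains the metabelian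
groups.
(1) Let `G` act on a tree, `L` a normal subgroup with `G ⧸ L` in `C`, and `M v` a family of subgroups
with the properties `Family`. If the stabilizers `G v` and the quotients `G v ⧸ M v` are in `C`, then so
is `G`.
(2) Let `G` act without inversions on a tree with at least one edge. If all edge stabilizers are
isomorphic to subgroups of `ℚ` and contain nontrivial powers of one element `e` of infinite order, and
all vertex stabilizers are in the class `Tame C`, then `G` is in the class `Tame C`.
(3) Locally nilpotent groups are in the class `Tame C`. -/
theorem result (C : ∀ (G : Type) [Group G], Prop) (hC : ClosedE C)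
    (hM : ∀ (G : Type) [Group G], derivedSeries G 2 = ⊥ → C G) :
    (∀ (G V : Type) [Group G] [MulAction G V] (T : SimpleGraph V) (L : Subgroup G) [L.Normal]
      (M : V → Subgroup G), T.IsTree → (∀ (g : G) (u v : V), T.Adj u v → T.Adj (g • u) (g • v)) →
        Family T L M → C (G ⧸ L) → (∀ v : V, C ↥(MulAction.stabilizer G v)) →
          (∀ v : V, QuotIn C ((M v).subgroupOf (MulAction.stabilizer G v))) → C G) ∧
    (∀ (G V : Type) [Group G] [MulAction G V] (T : SimpleGraph V) (e : G), TreeAction G T →
      (∃ v u, T.Adj v u) → InfiniteOrder e → (∀ v u, T.Adj v u → RankOne e v u) →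
        (∀ v : V, Tame C ↥(MulAction.stabilizer G v)) → Tame C G) ∧
    (∀ (G : Type) [Group G], (∀ H : Subgroup G, H.FG → Group.IsNilpotent H) → Tame C G) := by
  refine ⟨?_, ?_, ?_⟩
  · intro G V _ _ T L _ M hT hact hF hQ hV hVM
    have hR : Pool.Agent.E14.RE.Rd T L M := by
      refine ⟨hF.le, hF.eqv, fun u v huv x hxu hxv => hF.edge u v huv ⟨hxu, hxv⟩⟩
    refine hR.main hC hM hT hact hQ ?_ ?_ ?_
    · intro v
      obtain ⟨P, _, f, hP, hf⟩ := hVM v
      refine ⟨P, _, f, hP, fun x => ?_⟩
      rw [← MonoidHom.mem_ker, hf]
      exact Subgroup.mem_subgroupOf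
    · intro v u hvu x hxv hxu hx
      have h1 : x ∈ stab L v ⊓ stab L u ⊓ ⁅M v, stab L v⁆ := ⟨⟨hxv, hxu⟩, hx⟩
      rw [hF.comm v u hvu] at h1
      exact h1
    · intro v g hg
      refine Pool.Agent.R941.FJ.C_le hC.base (sup_le inf_le_left ?_) (hV v)
      rw [Subgroup.zpowers_le]
      exact hg
  · intro G V _ _ T e hT hne he hE hV
    rw [tame_iff]
    refine Pool.Agent.E14.RE.tame_comm hC hM (T := T) ⟨hT.isTree, hT.adj, hT.noInv⟩
      (fun v => tame_iff.1 (hV v)) hne e he fun u v huv => ?_
    obtain ⟨⟨m, hm, h1, h2⟩, hι⟩ := hE u v huv
    exact ⟨⟨m, hm, h1, h2⟩, hι⟩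
  · intro G _ hG
    rw [tame_iff]
    exact Pool.Agent.E14.RE.LN.tame hC hM hG

end Pool.Agent.Results.MP_59dd5b_al.CommensurableEdgeGroups
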