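import Pool.Agent.H40E9.FK.Mod

/-!
# Extensions with finitary linear kernels over rings

`C` is any class of groups with the closure properties `ClosedE C`, all of which are known for the
class of the groups that satisfy the fibered Farrell–Jones conjecture in A-theory for all free
`G`-CW-complexes, with finite wreath products.

Let `R` be a ring such that all the groups `GL_n(R)` are in `C` (for the class above this is known, for
instance, for the integers, for rings of `S`-integers in number fields and function fields, for the
polynomial rings `F_q[t]`, and for all rings which are free of finite rank as modules over one of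
these), and let `M` be a projective `R`-module of any rank. Let `G` be a group with a normal subgroup
`N` such that `G ⧸ N` is in `C`. If `G` acts on `M` by automorphisms and `N` is faithfully represented
by finitary automorphisms, then `G` is in `C`. Here `N` is finitary if every finite subset of `N`
fixes all elements of a submodule `W` of `M` for which `M ⧸ W` is finitely generated; if `R` is
noetherian, this means that `(n - 1) M` is finitely generated for all `n` in `N`. So, if `Fin(M)` is the
group of all finitary automorphisms of a projective module `M` over a noetherian ring, then all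
preimages in `Aut(M)` of subgroups of `Aut(M) ⧸ Fin(M)` which are in `C` are in `C`, and so are the
semidirect products of `Fin(M)` with groups in `C` that act on `M`. (If `R` is a domain and the groups
`GL_n` of its field of fractions are in `C` too, one can pass to vector spaces, for which this is in
the starting library; the point is that `R` may be any ring.)

The ring and the module may depend on the element `g` of `G`: it is enough that the conjugation by `g`
on `N` is the conjugation by an automorphism of `M`. Moreover `Aut(M)` may be replaced by the group of
units of any ring `A` if the elements `n - 1` of finite subsets of `N` are contained in corners `e A e`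
such that the groups `GL_2(e A e)` are in `C`.

Outline of the proof. Let `E` be a finite subset of `N` and let `e` be an idempotent such that `n - 1`
and `g n g⁻¹ - 1` are in `e A e` for all `n` in `E`. The conjugation by the unit `γ` on `E` is usually
not realized in the units of `e A e`, and in general it cannot be realized in the finitary group. But
`α = e γ e` and `β = e γ⁻¹ e` satisfy `α a = a' α`, `β α a = a` and `α a β = a'` for `a = n - 1`,
`a' = γ a γ⁻¹`, and so a product of elementary matrices with entries `α`, `-β`, `α` and `± e` in
`GL_2(e A e)` conjugates `diag(n, 1)` to `diag(γ n γ⁻¹, 1)` for all `n` in `E`. So the realization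
criterion applies. In the case of modules one has to find the idempotents: `M` is embedded as a direct
summand in a free module `L`, and if `L ⧸ W` is finitely generated, then `L` is the direct sum of the
free submodule on a finite part of the basis and of a submodule of `W`.
-/

set_option autoImplicit false

namespace Pool.Agent.Results.MP_59dd5b_al.FinitaryKernels

open Pool.Agent.Y110.FJ Pool.Agent.H40E9.FK

/-- All groups `GL_n(R)`, the automorphism groups of the `R`-modules `R ^ n`, are in `C`. -/
def AllGL (C : ∀ (G : Type) [Group G], Prop) (R : Type) [Ring R] : Prop :=
  ∀ n : ℕ, C ((Fin n → R) ≃ₗ[R] (Fin n → R))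

/-- For every finite subset `E` of `N` the quotient of `M` by the submodule of the elements which are
fixed by `E` is finitely generated. -/
def Finitary {R M N : Type} [Ring R] [AddCommGroup M] [Module R M] [Group N]
    (u : N →* (M ≃ₗ[R] M)) : Prop :=
  ∀ E : Set N, E.Finite → Module.Finite R (M ⧸ fixedBy u E)

/-- The conjugation by `g` on the normal subgroup `N` is realized by an automorphism `γ` of a
projective module `M` over a ring `R` for which all `GL_n(R)` are in `C`, on which `N` acts faithfully
by finitary automorphisms. -/
def FinitaryAt (C : ∀ (G : Type) [Group G], Prop) {G : Type} [Group G] (N : Subgroup G)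
    [hN : N.Normal] (g : G) : Prop :=
  ∃ (R M : Type) (_ : Ring R) (_ : AddCommGroup M) (_ : Module R M)
    (u : N →* (M ≃ₗ[R] M)) (γ : M ≃ₗ[R] M),
    Module.Projective R M ∧ AllGL C R ∧ Realizes g u γ ∧ Finitary u

/-- The elements `n` of `N` act non-trivially on `M` if they are not `1`, and all `(n - 1) M` are
finitely generated. -/
def FinitelyMoving {R M G : Type} [Ring R] [AddCommGroup M] [Module R M] [Group G]
    (φ : G →* (M ≃ₗ[R] M)) (N : Subgroup G) : Prop :=
  ∀ n ∈ N, (φ n = 1 → n = 1) ∧ (LinearMap.range ((φ n : M →ₗ[R] M) - LinearMap.id)).FG

/-- Let `C` be a class of groups with the closure properties `ClosedE C`.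
(1) Let `N` be normal in `G` with `G ⧸ N` in `C`. Suppose that for `g = 1` and for every `g` in `G` of
infinite order modulo `N` the conjugation by `g` on `N` is given by a unit of a ring in whose group of
units `N` is locally supported by idempotents, or it is realized on a projective module over a ring
`R` with all `GL_n(R)` in `C`, on which `N` acts faithfully by finitary automorphisms. Then `G` is in
`C`.
(2) Let `R` be a (left) noetherian ring such that all `GL_n(R)` are in `C`, let `M` be a projective
`R`-module, `φ` an action of `G` on `M` by automorphisms, `N` a normal subgroup of `G` with `G ⧸ N` in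
`C`, such that `φ` is injective on `N` and `(φ n - 1) M` is finitely generated for all `n` in `N`.
Then `G` is in `C`. -/
theorem result (C : ∀ (G : Type) [Group G], Prop) (hC : ClosedE C) :
    (∀ (G : Type) [Group G] (N : Subgroup G) [N.Normal], C (G ⧸ N) →
      (∀ g : G, (g = 1 ∨ ∀ n : ℕ, 0 < n → g ^ n ∉ N) →
        LocallySupported C N g ∨ FinitaryAt C N g) → C G) ∧
    (∀ (R M G : Type) [Ring R] [IsNoetherianRing R] [AddCommGroup M] [Module R M]
      [Module.Projective R M] [Group G] (φ : G →* (M ≃ₗ[R] M)) (N : Subgroup G) [N.Normal],
      AllGL C R → C (G ⧸ N) → FinitelyMoving φ N → C G) := by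
  have h2 : ∀ (G : Type) [Group G] (N : Subgroup G) [N.Normal], C (G ⧸ N) →
      (∀ g : G, (g = 1 ∨ ∀ n : ℕ, 0 < n → g ^ n ∉ N) →
        LocallySupported C N g ∨ FinitaryAt C N g) → C G := by
    intro G _ N hN hQ h
    refine main hC N hQ fun g hg => ?_
    rcases h g hg with h | ⟨R, M, _, _, _, u, γ, _, hR, ⟨hu, hγ⟩, hfin⟩
    · exact h
    · exact supp_mod hC.base hR N g u γ hu hγ hfin
  refine ⟨h2, ?_⟩
  intro R M G _ _ _ _ _ _ φ N hN hR hQ hfg
  refine h2 G N hQ fun g _ => Or.inr ?_
  refine ⟨R, M, inferInstance, inferInstance, inferInstance, φ.comp N.subtype, φ g,
    inferInstance, hR, ⟨?_, ?_⟩, ?_⟩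
  · rw [injective_iff_map_eq_one]
    intro n hn
    exact Subtype.ext ((hfg n n.2).1 hn)
  · intro n
    show φ (g * n * g⁻¹) = φ g * φ n * (φ g)⁻¹
    rw [map_mul, map_mul, map_inv]
  · intro E hE
    exact fin_of_noeth (φ.comp N.subtype) (fun n => (hfg n n.2).2) E hE

end Pool.Agent.Results.MP_59dd5b_al.FinitaryKernels
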