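import Pool.Agent.H40E9.RR.Main

/-!
# Von Neumann regular rings and their ideals

`C` is any class of groups with the closure properties `ClosedE C`, all of which are known for the
class of the groups that satisfy the fibered Farrell–Jones conjecture in A-theory for all free
`G`-CW-complexes, with finite wreath products.

Let `A` be a von Neumann regular ring such that every nonzero quotient ring `B` of `A` contains a
nonzero idempotent `e` such that all groups `GL_n(e B e)` are in `C`. Then all groups `GL_n(A)` are in
`C`. For instance, `A` may be any semiartinian regular ring (every nonzero quotient ring has a minimal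
right ideal; equivalently the Loewy series of `A`, of any transfinite length, ends with `A`), provided
that `GL_n(D)` is in `C` for the endomorphism rings `D` of the simple modules; then `e` can be chosen
such that `e B e = D` is a division ring. For the class above one can take all division rings `D` which
are of finite dimension over their centres, if these are algebraic over `ℚ` or over a rational function
field `F_q(t)`.

More generally let `I` be a two-sided ideal of a ring `A` such that all ideals `J ≤ I` have local units
(finite subsets of `J` are contained in `e A e` for idempotents `e` in `J`; this holds if all elements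
of `I` are von Neumann regular), and such that for all ideals `J < I` there is a nonzero idempotent `e`
in `I / J` with all `GL_n(e (A / J) e)` in `C`. Then all groups `GL_n(e A e)`, `e` an idempotent in `I`,
are in `C`. Moreover a group `G` is in `C` if it has a normal subgroup `N` with `G ⧸ N` in `C` such that
the conjugations by the elements of `G` on `N` are realized by units of rings `A` of which `1 + I`, `I` an
ideal of this kind, contains a copy of `N`.

Outline of the proof. By Zorn's lemma there is a maximal ideal `J ≤ I` such that all corners given by
idempotents in `J` are good. If `J ≠ I`, let `e` be the idempotent in `I / J` and let `J'` be the preimage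
of the ideal generated by `e`. The corners of `A / J` given by the idempotents in this ideal embed in
matrix rings over `e (A / J) e`, and for an idempotent `f` in `J'` the kernel of the homomorphism from
`GL_n(f A f)` to `GL_n` of the corner of `A / J` is locally supported by idempotents in `J`. By the
theorem on extensions with such kernels (stable conjugation, MP_59dd5b_al.FinitaryKernels) `J'` is
also good, a contradiction. No liftings of idempotents modulo `J` are needed, and it is essential that
the idempotents in `J` need not lie in `f A f`.
-/

set_option autoImplicit false

namespace Pool.Agent.Results.MP_59dd5b_al.RegularRings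

open Pool.Agent.Y110.FJ Pool.Agent.H40E9.FK Pool.Agent.H40E9.LP Pool.Agent.H40E9.RR

/-- `I` is a good ideal: all ideals below `I` have local units, or the elements of `I` are von Neumann
regular, and the quotients `I / J` by ideals `J < I` of `A` contain nonzero idempotents with good
corners. -/
def Good (C : ∀ (G : Type) [Group G], Prop) {A : Type} [Ring A] (I : TwoSidedIdeal A) : Prop :=
  ((∀ J ≤ I, LocalUnits J) ∨ Regular I) ∧ Scattered C I

/-- The conjugation by `g` on the normal subgroup `N` is given by a unit of a ring `A` with a good ideal
`I`, such that `N` is embedded in the group of the units in `1 + I`. -/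
def GoodAt (C : ∀ (G : Type) [Group G], Prop) {G : Type} [Group G] (N : Subgroup G)
    [N.Normal] (g : G) : Prop :=
  ∃ (A : Type) (_ : Ring A) (I : TwoSidedIdeal A) (u : N →* Aˣ) (γ : Aˣ),
    Good C I ∧ Realizes g u γ ∧ ∀ n, ((u n : Aˣ) : A) - 1 ∈ I

/-- Let `C` be a class of groups with the closure properties `ClosedE C`.
(1) If the ring `A` is von Neumann regular, or all its two-sided ideals have local units, and
every nonzero quotient ring `B` of `A` contains an idempotent `e ≠ 0` with all `GL_n(e B e)` in `C`, then
all `GL_n(A)` are in `C`.
(2) If `I` is a good ideal of `A` and `e` is an idempotent in `I`, then all `GL_n(e A e)` are in `C`.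
(3) If `N` is normal in `G` with `G ⧸ N` in `C` and the conjugations by `g = 1` and by all `g` of infinite
order modulo `N` are given by units of rings with good ideals `I`, `N` embedded in `1 + I`, then `G` is
in `C`. -/
theorem result (C : ∀ (G : Type) [Group G], Prop) (hC : ClosedE C) :
    (∀ (A : Type) [Ring A], Good C (⊤ : TwoSidedIdeal A) → GLs C A) ∧
    (∀ (A : Type) [Ring A] (I : TwoSidedIdeal A), Good C I → ∀ e ∈ I, e * e = e → CornerGLs C e) ∧
    (∀ (G : Type) [Group G] (N : Subgroup G) [N.Normal], C (G ⧸ N) →
      (∀ g : G, (g = 1 ∨ ∀ n : ℕ, 0 < n → g ^ n ∉ N) → GoodAt C N g) → C G) := by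
  have hlu : ∀ (A : Type) [Ring A] (I : TwoSidedIdeal A), Good C I → ∀ J ≤ I, LocalUnits J := by
    intro A _ I hI J hJ
    rcases hI.1 with h | h
    · exact h J hJ
    · exact localUnits_of_regular fun a ha => h a (hJ ha)
  have h2 : ∀ (A : Type) [Ring A] (I : TwoSidedIdeal A), Good C I → ∀ e ∈ I, e * e = e →
      CornerGLs C e := fun A _ I hI => corners hC I (hlu A I hI) hI.2
  refine ⟨?_, h2, ?_⟩
  · intro A _ hA n
    have h3 := h2 A ⊤ hA 1 trivial (mul_one 1) n
    have h4 : cGL n (1 : A) = ⊤ := by
      rw [eq_top_iff]
      intro u _
      have h5 : dg n (1 : A) = 1 := Matrix.diagonal_one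
      exact ⟨by rw [h5, one_mul], by rw [h5, mul_one]⟩
    exact hC.base.of_injective _ _ (MonoidHom.codRestrict (MonoidHom.id _) (cGL n (1 : A))
      (fun u => by rw [h4]; trivial)) (fun x y hxy => congrArg Subtype.val hxy) h3
  · intro G _ N hN hQ h
    refine main hC N hQ fun g hg => ?_
    obtain ⟨A, _, I, u, γ, hI, hu, hn⟩ := h g hg
    refine ⟨A, inferInstance, u, γ, hu, fun E hE => ?_⟩
    obtain ⟨e, heI, hee, heT⟩ := hlu A I hI I le_rfl ((fun n => ((u n : Aˣ) : A) - 1) '' E)
      (hE.image _) (by rintro _ ⟨n, _, rfl⟩; exact hn n)
    exact ⟨e, hee, h2 A I hI e heI hee 2, fun n hn' => heT _ ⟨n, hn', rfl⟩⟩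

end Pool.Agent.Results.MP_59dd5b_al.RegularRings
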